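import Pool.Agent.Helper71.PY.Goals

/-!
Packet PY-HYP: a Lagrangian with surjective `N → P^*` makes the form hyperbolic.
-/

set_option autoImplicit false

namespace Pool.Agent.Helper50.PY

open Pool.Agent.Helper71.PY Matrix

theorem hyp_lem : G_HYP := by
  intro R _ _ h2 N _ _ B hs P hL hfree hfin hsur
  classical
  obtain ⟨u, hu⟩ := h2
  set h : R := ((u⁻¹ : Rˣ) : R) with hh
  have h2h : (2 : R) * h = 1 := by
    rw [← hu, hh]; exact u.mul_inv
  let b := Module.finBasis R P
  have hiso : ∀ p q : P, B (p : N) (q : N) = 0 := fun p q => (hL p).1 p.2 q q.2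
  have hch : ∀ i, ∃ n : N, nu B P n = b.coord i := fun i => hsur _
  choose n hn using hch
  have hn' : ∀ i (p : P), B (n i) (p : N) = b.repr p i := by
    intro i p
    have := congrArg (fun f : P →ₗ[R] R => f p) (hn i)
    simpa using this
  have hnb : ∀ i j, B (n i) ((b j : P) : N) = if j = i then 1 else 0 := by
    intro i j
    rw [hn' i (b j), Module.Basis.repr_self, Finsupp.single_apply]
  have hbn : ∀ i j, B ((b j : P) : N) (n i) = if j = i then 1 else 0 := by
    intro i j
    rw [hs, hnb]
  let m : Fin (Module.finrank R P) → N :=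
    fun i => n i - h • ∑ j, B (n i) (n j) • ((b j : P) : N)
  have hmdef : ∀ i, m i = n i - h • ∑ j, B (n i) (n j) • ((b j : P) : N) := fun i => rfl
  -- pairing of `m` with `P`
  have hmp : ∀ i (p : P), B (m i) (p : N) = b.repr p i := by
    intro i p
    rw [hmdef, map_sub, map_smul, map_sum, LinearMap.sub_apply, LinearMap.smul_apply,
      LinearMap.sum_apply]
    have : ∑ j, (B (B (n i) (n j) • ((b j : P) : N))) (p : N) = 0 := by
      apply Finset.sum_eq_zero
      intro j _
      rw [map_smul, LinearMap.smul_apply, hiso (b j) p, smul_zero]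
    rw [this, smul_zero, sub_zero, hn']
  have hmb : ∀ i j, B (m i) ((b j : P) : N) = if j = i then 1 else 0 := by
    intro i j
    rw [hmp i (b j), Module.Basis.repr_self, Finsupp.single_apply]
  have hmn : ∀ i k, B (m i) (n k) = B (n i) (n k) - h * B (n i) (n k) := by
    intro i k
    rw [hmdef, map_sub, map_smul, map_sum, LinearMap.sub_apply, LinearMap.smul_apply,
      LinearMap.sum_apply]
    have : ∑ j, (B (B (n i) (n j) • ((b j : P) : N))) (n k) = B (n i) (n k) := by
      rw [Finset.sum_eq_single k]
      · rw [map_smul, LinearMap.smul_apply, hbn k k, if_pos rfl, smul_eq_mul, mul_one]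
      · intro j _ hj
        rw [map_smul, LinearMap.smul_apply, hbn k j, if_neg hj, smul_zero]
      · intro hk
        exact absurd (Finset.mem_univ k) hk
    rw [this, smul_eq_mul]
  have hmm : ∀ i k, B (m i) (m k) = 0 := by
    intro i k
    rw [hmdef k, map_sub, map_smul, map_sum, hmn]
    have : ∑ j, (B (m i)) (B (n k) (n j) • ((b j : P) : N)) = B (n i) (n k) := by
      rw [Finset.sum_eq_single i]
      · rw [map_smul, hmb i i, if_pos rfl, smul_eq_mul, mul_one, hs]
      · intro j _ hj
        rw [map_smul, hmb i j, if_neg hj, smul_zero]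
      · intro hk
        exact absurd (Finset.mem_univ i) hk
    rw [this, smul_eq_mul]
    linear_combination (-(B (n i) (n k))) * h2h
  have hbm : ∀ i j, B ((b j : P) : N) (m i) = if j = i then 1 else 0 := by
    intro i j
    rw [hs, hmb]
  let g : ((Fin (Module.finrank R P) → R) × (Fin (Module.finrank R P) → R)) →ₗ[R] N :=
    (Fintype.linearCombination R (fun i => ((b i : P) : N))).coprod
      (Fintype.linearCombination R m)
  have hg : ∀ x, g x = ∑ i, x.1 i • ((b i : P) : N) + ∑ i, x.2 i • m i := by
    intro x
    simp [g, Fintype.linearCombination_apply]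
  -- pairings of `g x` with the generators
  have hgb : ∀ x i, B (g x) ((b i : P) : N) = x.2 i := by
    intro x i
    rw [hg, map_add, map_sum, map_sum, LinearMap.add_apply, LinearMap.sum_apply,
      LinearMap.sum_apply]
    have e1 : ∑ j, (B (x.1 j • ((b j : P) : N))) ((b i : P) : N) = 0 := by
      apply Finset.sum_eq_zero
      intro j _
      rw [map_smul, LinearMap.smul_apply, hiso, smul_zero]
    have e2 : ∑ j, (B (x.2 j • m j)) ((b i : P) : N) = x.2 i := by
      rw [Finset.sum_eq_single i]
      · rw [map_smul, LinearMap.smul_apply, hmb i i, if_pos rfl, smul_eq_mul, mul_one]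
      · intro j _ hj
        rw [map_smul, LinearMap.smul_apply, hmb j i, if_neg (Ne.symm hj), smul_zero]
      · intro hk
        exact absurd (Finset.mem_univ i) hk
    rw [e1, e2, zero_add]
  have hgm : ∀ x i, B (g x) (m i) = x.1 i := by
    intro x i
    rw [hg, map_add, map_sum, map_sum, LinearMap.add_apply, LinearMap.sum_apply,
      LinearMap.sum_apply]
    have e1 : ∑ j, (B (x.2 j • m j)) (m i) = 0 := by
      apply Finset.sum_eq_zero
      intro j _
      rw [map_smul, LinearMap.smul_apply, hmm, smul_zero]
    have e2 : ∑ j, (B (x.1 j • ((b j : P) : N))) (m i) = x.1 i := by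
      rw [Finset.sum_eq_single i]
      · rw [map_smul, LinearMap.smul_apply, hbm i i, if_pos rfl, smul_eq_mul, mul_one]
      · intro j _ hj
        rw [map_smul, LinearMap.smul_apply, hbm i j, if_neg hj, smul_zero]
      · intro hk
        exact absurd (Finset.mem_univ i) hk
    rw [e1, e2, add_zero]
  have hgg : ∀ x y, B (g x) (g y) = Hn R _ x y := by
    intro x y
    conv_lhs => rw [hg y]
    rw [map_add, map_sum, map_sum, Hn_apply]
    simp only [map_smul, hgb, hgm, smul_eq_mul, dotProduct]
    rw [add_comm]
    congr 1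
    · exact Finset.sum_congr rfl (fun i _ => mul_comm _ _)
    · exact Finset.sum_congr rfl (fun i _ => mul_comm _ _)
  have hinj : Function.Injective g := by
    intro x y hxy
    refine Prod.ext ?_ ?_
    · funext i
      rw [← hgm x i, ← hgm y i, hxy]
    · funext i
      rw [← hgb x i, ← hgb y i, hxy]
  have hsurj : Function.Surjective g := by
    intro v
    -- the part orthogonal to `P`
    have hv : v - ∑ i, B v ((b i : P) : N) • m i ∈ P := by
      rw [hL]
      intro w hw
      have hb : ∀ k, B (v - ∑ i, B v ((b i : P) : N) • m i) ((b k : P) : N) = 0 := by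
        intro k
        rw [map_sub, map_sum, LinearMap.sub_apply, LinearMap.sum_apply]
        have e2 : ∑ j, (B (B v ((b j : P) : N) • m j)) ((b k : P) : N)
            = B v ((b k : P) : N) := by
          rw [Finset.sum_eq_single k]
          · rw [map_smul, LinearMap.smul_apply, hmb k k, if_pos rfl, smul_eq_mul, mul_one]
          · intro j _ hj
            rw [map_smul, LinearMap.smul_apply, hmb j k, if_neg (Ne.symm hj), smul_zero]
          · intro hk
            exact absurd (Finset.mem_univ k) hk
        rw [e2, sub_self]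
      have hz : nu B P (v - ∑ i, B v ((b i : P) : N) • m i) = 0 := by
        apply b.ext
        intro k
        rw [nu_apply, hb, LinearMap.zero_apply]
      have := congrArg (fun f : P →ₗ[R] R => f ⟨w, hw⟩) hz
      simpa using this
    refine ⟨(fun i => b.repr ⟨_, hv⟩ i, fun i => B v ((b i : P) : N)), ?_⟩
    rw [hg]
    have e := b.sum_repr ⟨_, hv⟩
    have e' := congrArg (fun p : P => (p : N)) e
    simp only [Submodule.coe_sum, Submodule.coe_smul] at e'
    change ∑ i, (b.repr ⟨_, hv⟩ i) • ((b i : P) : N) + ∑ i, B v ((b i : P) : N) • m i = v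
    rw [e', sub_add_cancel]
  refine ⟨Module.finrank R P, (LinearEquiv.ofBijective g ⟨hinj, hsurj⟩).symm, ?_⟩
  intro v w
  rw [← hgg]
  have e1 : g ((LinearEquiv.ofBijective g ⟨hinj, hsurj⟩).symm v) = v :=
    (LinearEquiv.ofBijective g ⟨hinj, hsurj⟩).apply_symm_apply v
  have e2 : g ((LinearEquiv.ofBijective g ⟨hinj, hsurj⟩).symm w) = w :=
    (LinearEquiv.ofBijective g ⟨hinj, hsurj⟩).apply_symm_apply w
  rw [e1, e2]

end Pool.Agent.Helper50.PY
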